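import Pool.Agent.W525.CB.Stm

/-!
# Construction of morphisms (`S_MOR`)
-/

set_option autoImplicit false

open AlgebraicGeometry CategoryTheory Order

namespace Pool.Agent.W73.CB

open Pool.Agent.H187R3 Pool.Agent.W525.CB

/-- factorisation of a ring homomorphism through an injective one -/
theorem lift_hom {A B E : Type} [CommRing A] [CommRing B] [CommRing E] (α : A →+* E) (β : B →+* E)
    (hα : Function.Injective α) (h : ∀ b, ∃ a, α a = β b) :
    ∃ ψ : B →+* A, ∀ b, α (ψ b) = β b := by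
  choose f hf using h
  refine ⟨{ toFun := f
            map_one' := hα (by rw [hf, map_one, map_one])
            map_mul' := fun x y => hα (by rw [hf, map_mul, map_mul, hf, hf])
            map_zero' := hα (by rw [hf, map_zero, map_zero])
            map_add' := fun x y => hα (by rw [hf, map_add, map_add, hf, hf]) }, hf⟩

/-- the sections over `U` as elements of `E` -/
noncomputable def thE {X : Scheme.{0}} [IsIntegral X] {E : Type} [Field E]
    (κ : X.functionField →+* E) (U : X.Opens) (hη : genericPoint X ∈ U) : Γ(X, U) →+* E :=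
  κ.comp (X.presheaf.germ U (genericPoint X) hη).hom

theorem thE_inj {X : Scheme.{0}} [IsIntegral X] {E : Type} [Field E]
    (κ : X.functionField →+* E) (U : X.Opens) (hη : genericPoint X ∈ U) :
    Function.Injective (thE κ U hη) := by
  unfold thE
  rw [RingHom.coe_comp]
  refine κ.injective.comp ?_
  exact germ_injective_of_isIntegral X (genericPoint X) hη

theorem secIn_eq {X : Scheme.{0}} [IsIntegral X] {E : Type} [Field E]
    (κ : X.functionField →+* E) (U : X.Opens) (hη : genericPoint X ∈ U) :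
    secIn κ U = Set.range (thE κ U hη) := by
  ext e
  constructor
  · rintro ⟨h, s, hs⟩
    exact ⟨s, hs⟩
  · rintro ⟨s, hs⟩
    exact ⟨hη, s, hs⟩

/-- the map of function fields -/
theorem exists_tau {X Z : Scheme.{0}} [IsIntegral X] [IsIntegral Z] {E : Type} [Field E]
    (κX : X.functionField →+* E) (κZ : Z.functionField →+* E) (U : X.Opens) (V : Z.Opens)
    (hV : IsAffineOpen V) (hU : genericPoint X ∈ U) (hV' : genericPoint Z ∈ V)
    (hsub : secIn κZ V ⊆ secIn κX U) :
    ∃ τ : Z.functionField →+* X.functionField, ∀ φ, κX (τ φ) = κZ φ := by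
  apply lift_hom κX κZ κX.injective
  intro φ
  have : Nonempty V := ⟨⟨_, hV'⟩⟩
  have := functionField_isFractionRing_of_isAffineOpen Z V hV
  obtain ⟨b, s, hs, rfl⟩ := IsFractionRing.div_surjective (A := Γ(Z, V)) φ
  rw [secIn_eq κZ V hV', secIn_eq κX U hU] at hsub
  obtain ⟨b', hb'⟩ := hsub ⟨b, rfl⟩
  obtain ⟨s', hs'⟩ := hsub ⟨s, rfl⟩
  refine ⟨(X.presheaf.germ U (genericPoint X) hU).hom b' /
    (X.presheaf.germ U (genericPoint X) hU).hom s', ?_⟩
  rw [map_div₀, map_div₀]
  congr 1

/-- the partial map on the chart `U` -/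
noncomputable def pm {X Z : Scheme.{0}} [IsIntegral X] {U : X.Opens} (hU : genericPoint X ∈ U)
    {V : Z.Opens} (hV : IsAffineOpen V) (ψ : Γ(Z, V) ⟶ Γ(X, U)) : X.PartialMap Z where
  domain := U
  dense_domain := U.isOpen.dense ⟨_, hU⟩
  hom := U.toSpecΓ ≫ Spec.map ψ ≫ hV.fromSpec

theorem pm_generic {X Z : Scheme.{0}} [IsIntegral X] [IsIntegral Z] {U : X.Opens}
    (hU : genericPoint X ∈ U) {V : Z.Opens} (hV : IsAffineOpen V) (hV' : genericPoint Z ∈ V)
    (ψ : Γ(Z, V) ⟶ Γ(X, U)) (τ : Z.functionField ⟶ X.functionField)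
    (h : ψ ≫ X.presheaf.germ U (genericPoint X) hU = Z.presheaf.germ V (genericPoint Z) hV' ≫ τ) :
    (pm hU hV ψ).fromSpecStalkOfMem (x := genericPoint X) hU =
      Spec.map τ ≫ Z.fromSpecStalk (genericPoint Z) := by
  unfold Scheme.PartialMap.fromSpecStalkOfMem
  show U.fromSpecStalkOfMem (genericPoint X) hU ≫ U.toSpecΓ ≫ Spec.map ψ ≫ hV.fromSpec = _
  rw [Scheme.Opens.fromSpecStalkOfMem_toSpecΓ_assoc, ← Spec.map_comp_assoc, h,
    Spec.map_comp_assoc, ← hV.fromSpecStalk_eq_fromSpecStalk hV']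
  rfl

theorem pm_range {X Z : Scheme.{0}} [IsIntegral X] {U : X.Opens} (hU : genericPoint X ∈ U)
    {V : Z.Opens} (hV : IsAffineOpen V) (ψ : Γ(Z, V) ⟶ Γ(X, U)) (x : U) :
    (pm hU hV ψ).hom x ∈ V := by
  show (U.toSpecΓ ≫ Spec.map ψ ≫ hV.fromSpec) x ∈ V
  rw [← Category.assoc, Scheme.Hom.comp_apply]
  have h := hV.range_fromSpec
  have h2 : hV.fromSpec ((U.toSpecΓ ≫ Spec.map ψ) x) ∈ Set.range hV.fromSpec := ⟨_, rfl⟩
  rw [h] at h2
  exact h2

/-- gluing of equivalent partial maps with values in a separated scheme -/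
theorem exists_glue {X Z : Scheme.{0}} [IsIntegral X] [Z.IsSeparated] {A : Type}
    (F : A → X.PartialMap Z) (heq : ∀ a b, (F a).equiv (F b)) (a₀ : A)
    (hcov : ∀ x, ∃ a, x ∈ (F a).domain) :
    ∃ h : X ⟶ Z, ∀ a, (F a).domain.ι ≫ h = (F a).hom := by
  have hR : ∀ a, (F a).toRationalMap = (F a₀).toRationalMap := fun a =>
    Scheme.PartialMap.toRationalMap_eq_iff.mpr (heq a a₀)
  set R := (F a₀).toRationalMap with hRdef
  have hdom : R.domain = ⊤ := by
    apply top_le_iff.mp
    intro x _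
    obtain ⟨a, ha⟩ := hcov x
    have h1 := (F a).le_domain_toRationalMap
    rw [hR a] at h1
    exact h1 ha
  let P := R.toPartialMap
  have hP : P.domain = ⊤ := hdom
  refine ⟨X.topIso.inv ≫ (X.isoOfEq hP).inv ≫ P.hom, fun a => ?_⟩
  have h2 := (F a).toPartialMap_toRationalMap_restrict
  have h3 : ∀ (Q : X.RationalMap Z), Q = R → ∀ (hle : (F a).domain ≤ Q.toPartialMap.domain),
      (Q.toPartialMap.restrict _ (F a).dense_domain hle).hom =
        X.homOfLE (show (F a).domain ≤ P.domain by rw [hP]; exact le_top) ≫ P.hom := by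
    rintro Q rfl hle
    rfl
  rw [h3 _ (hR a)] at h2
  rw [← h2]
  rw [← Category.assoc, ← Category.assoc]
  congr 1
  rw [← cancel_mono P.domain.ι]
  simp

/-- the morphism maps the generic point to the generic point -/
theorem map_generic {X Z : Scheme.{0}} [IsIntegral X] [IsIntegral Z] (h : X ⟶ Z)
    (τ : Z.functionField ⟶ X.functionField)
    (hτ : X.fromSpecStalk (genericPoint X) ≫ h = Spec.map τ ≫ Z.fromSpecStalk (genericPoint Z)) :
    h (genericPoint X) = genericPoint Z := by
  have h1 := Scheme.fromSpecStalk_closedPoint (X := X) (x := genericPoint X)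
  have h2 : h (genericPoint X) = (X.fromSpecStalk (genericPoint X) ≫ h)
      (IsLocalRing.closedPoint (X.presheaf.stalk (genericPoint X))) := by
    rw [Scheme.Hom.comp_apply, h1]
  rw [h2, hτ, Scheme.Hom.comp_apply]
  have h3 : ∀ y, Z.fromSpecStalk (genericPoint Z) y = genericPoint Z := by
    intro y
    have h4 : Z.fromSpecStalk (genericPoint Z) y ∈ Set.range (Z.fromSpecStalk (genericPoint Z)) :=
      ⟨y, rfl⟩
    rw [Scheme.range_fromSpecStalk] at h4
    have h5 : Z.fromSpecStalk (genericPoint Z) y ⤳ genericPoint Z := h4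
    exact (h5.antisymm (genericPoint_specializes _)).eq
  exact h3 _

theorem isDominant_of_generic {X Z : Scheme.{0}} [IsIntegral X] [IsIntegral Z] (h : X ⟶ Z)
    (hg : h (genericPoint X) = genericPoint Z) : IsDominant h := by
  refine ⟨?_⟩
  have h1 : Dense ({genericPoint Z} : Set Z) := by
    rw [dense_iff_closure_eq]
    exact genericPoint_closure Z
  refine h1.mono ?_
  rintro _ rfl
  exact ⟨_, hg⟩

theorem functionFieldMap_eq {X Z : Scheme.{0}} [IsIntegral X] [IsIntegral Z] (h : X ⟶ Z)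
    [IsDominant h] (τ : Z.functionField ⟶ X.functionField)
    (hτ : X.fromSpecStalk (genericPoint X) ≫ h = Spec.map τ ≫ Z.fromSpecStalk (genericPoint Z)) :
    functionFieldMap h = τ.hom := by
  unfold functionFieldMap
  congr 1
  apply Spec.map_injective
  rw [← cancel_mono (Z.fromSpecStalk (genericPoint Z)), ← hτ, Spec.map_comp, Category.assoc,
    Scheme.SpecMap_stalkSpecializes_fromSpecStalk, Scheme.SpecMap_stalkMap_fromSpecStalk]

theorem germ_functionFieldMap {X Z : Scheme.{0}} [IsIntegral X] [IsIntegral Z] (h : X ⟶ Z)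
    [IsDominant h] (s : Γ(Z, ⊤)) :
    functionFieldMap h ((Z.presheaf.germ ⊤ (genericPoint Z) trivial).hom s) =
      (X.presheaf.germ ⊤ (genericPoint X) trivial).hom (h.appTop.hom s) := by
  have h1 : Z.presheaf.germ ⊤ (genericPoint Z) trivial ≫
      (Z.presheaf.stalkSpecializes (specializes_of_isDominant h) ≫ h.stalkMap (genericPoint X)) =
      h.appTop ≫ X.presheaf.germ ⊤ (genericPoint X) trivial := by
    rw [TopCat.Presheaf.germ_stalkSpecializes_assoc, Scheme.Hom.germ_stalkMap]
    rfl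
  have h2 := congrArg (fun q => q.hom s) h1
  exact h2

theorem t_MOR : Pool.Agent.W525.CB.S_MOR := by
  intro k _ X Z _ _ f g _ E _ κX κZ hk A U V hU hV hU' hV' hcov hsub
  have hZs : Z.IsSeparated := by
    refine ⟨?_⟩
    rw [← Limits.terminal.comp_from g]
    infer_instance
  obtain ⟨a₀, -⟩ := hcov (genericPoint X)
  obtain ⟨τ, hτ⟩ := exists_tau κX κZ (U a₀) (V a₀) (hV a₀) (hU' a₀) (hV' a₀) (hsub a₀)
  have hψ : ∀ a, ∃ ψ : Γ(Z, V a) ⟶ Γ(X, U a), ψ ≫ X.presheaf.germ (U a) (genericPoint X) (hU' a) =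
      Z.presheaf.germ (V a) (genericPoint Z) (hV' a) ≫
        (CommRingCat.ofHom τ : Z.functionField ⟶ X.functionField) := by
    intro a
    have h1 := hsub a
    rw [secIn_eq κZ (V a) (hV' a), secIn_eq κX (U a) (hU' a)] at h1
    obtain ⟨ψ, hψ⟩ := lift_hom (thE κX (U a) (hU' a)) (thE κZ (V a) (hV' a))
      (thE_inj κX (U a) (hU' a)) (fun b => h1 ⟨b, rfl⟩)
    refine ⟨CommRingCat.ofHom ψ, ?_⟩
    ext s
    apply κX.injective
    have h2 := hψ s
    unfold thE at h2
    rw [RingHom.comp_apply, RingHom.comp_apply] at h2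
    have h3 := hτ ((Z.presheaf.germ (V a) (genericPoint Z) (hV' a)).hom s)
    exact h2.trans h3.symm
  choose ψ hψ using hψ
  let F : A → X.PartialMap Z := fun a => pm (hU' a) (hV a) (ψ a)
  have hF : ∀ a, (F a).fromSpecStalkOfMem (x := genericPoint X) (hU' a) =
      Spec.map (CommRingCat.ofHom τ) ≫ Z.fromSpecStalk (genericPoint Z) := fun a =>
    pm_generic (hU' a) (hV a) (hV' a) (ψ a) (CommRingCat.ofHom τ) (hψ a)
  obtain ⟨h, hh⟩ := exists_glue F (fun a b =>
    Scheme.PartialMap.equiv_of_fromSpecStalkOfMem_eq (F a) (F b) (hU' a) (hU' b)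
      ((hF a).trans (hF b).symm)) a₀ hcov
  have hgen : X.fromSpecStalk (genericPoint X) ≫ h =
      Spec.map (CommRingCat.ofHom τ) ≫ Z.fromSpecStalk (genericPoint Z) := by
    rw [← hF a₀, ← (U a₀).fromSpecStalkOfMem_ι (genericPoint X) (hU' a₀), Category.assoc]
    unfold Scheme.PartialMap.fromSpecStalkOfMem
    rw [← hh a₀]
    rfl
  have hdom : IsDominant h := isDominant_of_generic h (map_generic h _ hgen)
  have hff : ∀ φ, κX (functionFieldMap h φ) = κZ φ := by
    intro φ
    rw [functionFieldMap_eq h _ hgen]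
    exact hτ φ
  refine ⟨h, ?_, hdom, hff, ?_⟩
  · apply ext_of_isAffine
    rw [← cancel_epi (Scheme.ΓSpecIso (CommRingCat.of k)).inv]
    ext c
    apply thE_inj κX ⊤ trivial
    have h2 := germ_functionFieldMap h
      (((Scheme.ΓSpecIso (CommRingCat.of k)).inv ≫ g.appTop).hom c)
    have h3 := hff ((Z.presheaf.germ ⊤ (genericPoint Z) trivial).hom
      (((Scheme.ΓSpecIso (CommRingCat.of k)).inv ≫ g.appTop).hom c))
    rw [h2] at h3
    rw [Scheme.Hom.comp_appTop]
    exact h3.trans (hk c).symm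
  · intro a x hx
    have h1 := pm_range (hU' a) (hV a) (ψ a) ⟨x, hx⟩
    have h2 : (F a).hom ⟨x, hx⟩ = h x := by
      rw [← hh a, Scheme.Hom.comp_apply]
      rfl
    show h x ∈ V a
    rw [← h2]
    exact h1

theorem main : S_LOC → S_HOM → S_MOR := fun _ _ => t_MOR

end Pool.Agent.W73.CB
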